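import Pool.Agent.H20.Oh4

set_option autoImplicit false

namespace Pool.Agent.Results.MP_abf9c7_co.Theta

open H20.Oh

theorem result (s a : ℕ) (ha : s + 2 ≤ a) :
    ∃ c C : ℝ, 0 < c ∧ 0 < C ∧ ∃ b₀ : ℕ, ∀ b : ℕ, b₀ ≤ b →
      c * (b : ℝ) ^ ((1 : ℝ) / (2 * (s : ℝ) + 2)) ≤ (tau s a b : ℝ) ∧
      (tau s a b : ℝ) ≤ C * (b : ℝ) ^ ((1 : ℝ) / (2 * (s : ℝ) + 2)) := by
  obtain ⟨C, hC⟩ := upper a (s + 1) (by omega)
  refine ⟨1 / 2, C + 2, by norm_num, by positivity, (2 * (s + 2)) ^ (2 * (s + 1)), fun b hb => ?_⟩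
  have hb1 : 1 ≤ b := le_trans (Nat.one_le_pow _ _ (by omega)) hb
  rw [tau_eq s a b (by omega) hb1]
  set x : ℝ := (b : ℝ) ^ ((1 : ℝ) / (2 * (s : ℝ) + 2)) with hx
  have hx0 : 0 ≤ x := by positivity
  have hxp : x ^ (2 * (s + 1)) = b := by
    rw [hx, ← Real.rpow_natCast, ← Real.rpow_mul (by positivity)]
    have : (1 : ℝ) / (2 * (s : ℝ) + 2) * ((2 * (s + 1) : ℕ) : ℝ) = 1 := by
      push_cast; field_simp
    rw [this, Real.rpow_one]
  have hne : {t | Choosable (JG t a b) (t + (s + 1) + 1)}.Nonempty :=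
    ⟨C * b + 1, hC _ b hb1 (lt_of_lt_of_le (Nat.lt_succ_self _) (Nat.le_self_pow (by omega) _))⟩
  set τ := sInf {t | Choosable (JG t a b) (t + (s + 1) + 1)} with hτ
  have h0 : (2 * ((s : ℝ) + 2)) ≤ x := by
    refine le_of_pow_le_pow_left₀ (n := 2 * (s + 1)) (by omega) hx0 ?_
    rw [hxp]; exact_mod_cast hb
  have hs0 : (0 : ℝ) ≤ s := by positivity
  constructor
  · have h1 : b < (τ + (s + 1) + 1) ^ (2 * (s + 1)) := by
      by_contra e
      exact lower a (s + 1) τ b (by omega) (not_lt.mp e) (Nat.sInf_mem hne)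
    have h2 : x < (τ : ℝ) + (s + 1) + 1 := by
      refine lt_of_pow_lt_pow_left₀ (2 * (s + 1)) (by positivity) ?_
      rw [hxp]; exact_mod_cast h1
    linarith
  · rcases Nat.eq_zero_or_pos τ with e | e
    · rw [e]; simp only [Nat.cast_zero]; positivity
    · obtain ⟨u, hu⟩ : ∃ u, τ = u + 1 := ⟨τ - 1, by omega⟩
      have h1 : u ^ (2 * (s + 1)) ≤ C * b := by
        by_contra e'
        have := Nat.sInf_le (s := {t | Choosable (JG t a b) (t + (s + 1) + 1)})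
          (hC u b hb1 (not_le.mp e'))
        omega
      have h2 : (u : ℝ) ≤ (C + 1) * x := by
        refine le_of_pow_le_pow_left₀ (n := 2 * (s + 1)) (by omega) (by positivity) ?_
        rw [mul_pow, hxp]
        have h3 : C * b ≤ (C + 1) ^ (2 * (s + 1)) * b :=
          Nat.mul_le_mul_right _ (le_trans (Nat.le_succ _) (Nat.le_self_pow (by omega) _))
        exact_mod_cast h1.trans h3
      rw [hu]; push_cast
      nlinarith

end Pool.Agent.Results.MP_abf9c7_co.Theta
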